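import Pool.Agent.Helper21_CON.Btrn
import Pool.Agent.Helper70_CON.HenSpn

/-!
Squad CON: module B_TEM (all Eichler transformations at the cusp are in W(L))
-/

noncomputable section

namespace Pool.Agent.CON.H27

open Pool.Agent.H25Cong Pool.Agent.CON

variable {n : ℕ}

/-! ### The form on `Mef` -/

lemma bG_cast {L : Submodule ℤ (V n)} (hL : EvenLat L) {e f : V n} (x y : Mef L e f) :
    (bG (Mef L e f) x y : ℝ) = B (x : V n) (y : V n) := by
  obtain ⟨k, hk⟩ := hL.int x.1 x.2.1 y.1 y.2.1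
  unfold bG
  rw [hk, Int.floor_intCast]

lemma qG_cast {L : Submodule ℤ (V n)} (hL : EvenLat L) {e f : V n} (x : Mef L e f) :
    (qG (Mef L e f) x : ℝ) = B (x : V n) (x : V n) / 2 := by
  obtain ⟨k, hk⟩ := hL.even x.1 x.2.1
  unfold qG
  have : (2 * (k : ℝ)) / 2 = (k : ℝ) := by ring
  rw [hk, this, Int.floor_intCast]

lemma qf {L : Submodule ℤ (V n)} (hL : EvenLat L) (e f : V n) :
    QF (bG (Mef L e f)) (qG (Mef L e f)) where
  add_left x y z := by
    have : ((bG (Mef L e f) (x + y) z : ℤ) : ℝ) =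
        ((bG (Mef L e f) x z + bG (Mef L e f) y z : ℤ) : ℝ) := by
      push_cast
      rw [bG_cast hL, bG_cast hL, bG_cast hL, AddSubgroup.coe_add, B_add_left]
    exact_mod_cast this
  symm x y := by
    have : ((bG (Mef L e f) x y : ℤ) : ℝ) = ((bG (Mef L e f) y x : ℤ) : ℝ) := by
      rw [bG_cast hL, bG_cast hL, B_comm]
    exact_mod_cast this
  self x := by
    have : ((bG (Mef L e f) x x : ℤ) : ℝ) = ((2 * qG (Mef L e f) x : ℤ) : ℝ) := by
      push_cast
      rw [bG_cast hL, qG_cast hL]; ring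
    exact_mod_cast this
  q_add x y := by
    have : ((qG (Mef L e f) (x + y) : ℤ) : ℝ) =
        ((qG (Mef L e f) x + qG (Mef L e f) y + bG (Mef L e f) x y : ℤ) : ℝ) := by
      push_cast
      rw [bG_cast hL, qG_cast hL, qG_cast hL, qG_cast hL, AddSubgroup.coe_add, B_add_left,
        B_add_right, B_add_right, B_comm (y : V n) (x : V n)]
      ring
    exact_mod_cast this

/-! ### Abstract part -/

section abs

variable {A : Type} [AddCommGroup A] {b : A → A → ℤ} {q : A → ℤ}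

lemma indA_mono {Y : AddSubgroup A} {p : ℕ} (h : IndA b Y p 5) : IndA b Y p 3 := by
  obtain ⟨c, hc, hz⟩ := h
  refine ⟨fun i => c (Fin.castLE (by norm_num) i), fun i => hc _, ?_⟩
  intro z hzy i
  have h1 := hz (fun j => if hj : j.1 < 3 then z ⟨j.1, hj⟩ else 0) ?_
    (Fin.castLE (by norm_num) i)
  · have h2 : ((Fin.castLE (by norm_num : 3 ≤ 5) i : Fin 5)).1 < 3 := i.2
    rw [dif_pos h2] at h1
    exact h1
  · intro y hy
    have h3 : (∑ j : Fin 5, (if hj : j.1 < 3 then z ⟨j.1, hj⟩ else 0) • c j) =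
        ∑ i : Fin 3, z i • c (Fin.castLE (by norm_num) i) := by
      rw [Fin.sum_univ_five, Fin.sum_univ_three]
      simp
    rw [h3]
    exact hzy y hy

/-- the orthogonal complement modulo p of a pair -/
def Yc (hq : QF b q) (p : ℕ) (u w : A) : AddSubgroup A where
  carrier := {y | (p : ℤ) ∣ b y u ∧ (p : ℤ) ∣ b y w}
  zero_mem' := ⟨by rw [H70.zero_left hq]; exact dvd_zero _,
    by rw [H70.zero_left hq]; exact dvd_zero _⟩
  add_mem' := by
    rintro x y ⟨h1, h2⟩ ⟨h3, h4⟩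
    exact ⟨by rw [hq.add_left]; exact dvd_add h1 h3, by rw [hq.add_left]; exact dvd_add h2 h4⟩
  neg_mem' := by
    rintro x ⟨h1, h2⟩
    have h3 : ∀ y, b (-x) y = - b x y := fun y => by
      have := H70.smul_left hq (-1) x y
      simpa using this
    exact ⟨by rw [h3]; exact (dvd_neg).mpr h1, by rw [h3]; exact (dvd_neg).mpr h2⟩

/-- two orthogonal hyperbolic pairs -/
lemma pairs (hHYP : B_HYP) (hCMP : B_CMP) (hq : QF b q) {p : ℕ} (hp : p.Prime)
    (h5 : IndA b ⊤ p 5) : ∃ u w u' w', HP b q p u w ∧ HP b q p u' w' ∧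
      (p : ℤ) ∣ b u u' ∧ (p : ℤ) ∣ b u w' ∧ (p : ℤ) ∣ b w u' ∧ (p : ℤ) ∣ b w w' := by
  obtain ⟨u, hu, w, hw, hP⟩ := hHYP A b q ⊤ p hq hp (indA_mono h5)
  have h3 := hCMP A b q ⊤ (Yc hq p u w) p 3 u w hq hp hu hw hP
    (fun y => ⟨fun h => ⟨trivial, h.1, h.2⟩, fun h => ⟨h.2.1, h.2.2⟩⟩) h5
  obtain ⟨u', hu', w', hw', hP'⟩ := hHYP A b q _ p hq hp h3
  exact ⟨u, w, u', w', hP, hP', by rw [hq.symm]; exact hu'.1, by rw [hq.symm]; exact hw'.1,
    by rw [hq.symm]; exact hu'.2, by rw [hq.symm]; exact hw'.2⟩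

/-- a smooth solution of `q = 1` modulo p -/
lemma smooth (hq : QF b q) {p : ℕ} (hp : p.Prime) {u w : A} (h : HP b q p u w) :
    (p : ℤ) ∣ q (u + w) - 1 ∧ ¬ (p : ℤ) ∣ b (u + w) w := by
  obtain ⟨⟨a, ha⟩, ⟨c, hc⟩, ⟨d, hd⟩⟩ := h
  constructor
  · rw [hq.q_add]
    exact ⟨a + c + d, by linarith⟩
  · rw [hq.add_left, hq.self w]
    rintro ⟨k, hk⟩
    have h1 : (p : ℤ) ∣ 1 := ⟨k - d - 2 * c, by linarith⟩
    have h2 : (p : ℤ) = 1 ∨ (p : ℤ) = -1 := Int.isUnit_iff.mp (isUnit_of_dvd_one h1)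
    have h3 := hp.two_le
    omega

/-- the subgroup `p A` -/
def pA (A : Type) [AddCommGroup A] (p : ℕ) : AddSubgroup A where
  carrier := {x | ∃ y : A, x = (p : ℤ) • y}
  zero_mem' := ⟨0, by simp⟩
  add_mem' := by
    rintro x y ⟨x', rfl⟩ ⟨y', rfl⟩
    exact ⟨x' + y', by rw [smul_add]⟩
  neg_mem' := by
    rintro x ⟨x', rfl⟩
    exact ⟨-x', by rw [smul_neg]⟩

/-- H + p A = A for all primes p | N and N A ⊂ H imply H = A -/
lemma all_of_primes {N : ℕ} (hN : 0 < N) (H : AddSubgroup A)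
    (h1 : ∀ x : A, (N : ℤ) • x ∈ H)
    (h2 : ∀ p : ℕ, p.Prime → p ∣ N → H ⊔ pA A p = ⊤) : H = ⊤ := by
  have key : ∀ d : ℕ, d ∣ N → ∀ x : A, ∃ h ∈ H, ∃ y : A, x = h + (d : ℤ) • y := by
    intro d
    induction d using Nat.recOnMul with
    | zero => 
      intro hd
      rw [zero_dvd_iff] at hd
      omega
    | one => exact fun _ x => ⟨0, H.zero_mem, x, by simp⟩
    | prime p hp =>
      intro hpN x
      have hx : x ∈ H ⊔ pA A p := by rw [h2 p hp hpN]; trivial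
      obtain ⟨h, hh, z, ⟨y, rfl⟩, rfl⟩ := AddSubgroup.mem_sup.mp hx
      exact ⟨h, hh, y, rfl⟩
    | mul a c iha ihc =>
      intro hac x
      obtain ⟨h, hh, y, rfl⟩ := iha (dvd_trans (Dvd.intro _ rfl) hac) x
      obtain ⟨h', hh', y', rfl⟩ := ihc (dvd_trans (Dvd.intro_left _ rfl) hac) y
      refine ⟨h + (a : ℤ) • h', H.add_mem hh (H.zsmul_mem hh' _), y', ?_⟩
      rw [smul_add, ← mul_smul]
      push_cast
      abel
  rw [eq_top_iff]
  intro x _
  obtain ⟨h, hh, y, rfl⟩ := key N dvd_rfl x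
  exact H.add_mem hh (h1 y)

/-- the local step -/
lemma local_step (hHYP : B_HYP) (hCMP : B_CMP) (hHEN : B_HEN) (hSPN : B_SPN) (hq : QF b q)
    {N : ℕ} (hN : 0 < N) (H : AddSubgroup A) (h5 : ∀ p : ℕ, p.Prime → IndA b ⊤ p 5)
    (hT : ∀ μ : A, (∃ k : ℤ, q μ = 1 + N ^ 2 * k) → ∀ m : A, b m μ • μ ∈ H) {p : ℕ}
    (hp : p.Prime) (hpN : p ∣ N) : H ⊔ pA A p = ⊤ := by
  classical
  have hpairs := fun l (hl : Nat.Prime l) => pairs hHYP hCMP hq hl (h5 l hl)
  obtain ⟨u, w, u', w', hP, hP', g1, g2, g3, g4⟩ := hpairs p hp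
  refine hSPN A b q p u w u' w' (H ⊔ pA A p) hq hp hP hP' g1 g2 g3 g4 ?_ ?_
  · intro x
    exact AddSubgroup.mem_sup_right ⟨x, rfl⟩
  · rintro v hv ⟨y0, hy0⟩
    -- smooth solutions for all primes
    have hsol : ∀ l : ℕ, ∃ z z' : A, l.Prime → ((l : ℤ) ∣ q z - 1 ∧ ¬ (l : ℤ) ∣ b z z') ∧
        (l = p → z = v) := by
      intro l
      by_cases hl : l.Prime
      · by_cases hlp : l = p
        · subst hlp
          exact ⟨v, y0, fun _ => ⟨⟨hv, hy0⟩, fun _ => rfl⟩⟩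
        · obtain ⟨a, c, -, -, hac, -⟩ := hpairs l hl
          exact ⟨a + c, c, fun _ => ⟨smooth hq hl hac, fun h => absurd h hlp⟩⟩
      · exact ⟨0, 0, fun h => absurd h hl⟩
    choose z z' hz using hsol
    obtain ⟨μ, -, hμ1, hμ2⟩ := hHEN A b q ⊤ 0 1 (N ^ 2) z z' hq (by positivity)
      (fun l hl _ => ⟨trivial, trivial, by rw [zero_add]; exact (hz l hl).1.1,
        by rw [zero_add]; exact (hz l hl).1.2⟩)
    rw [zero_add] at hμ1
    obtain ⟨k, hk⟩ := hμ1
    obtain ⟨s, -, hs⟩ := hμ2 p hp (dvd_trans hpN (dvd_pow_self N two_ne_zero))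
    rw [(hz p hp).2 rfl] at hs
    have hTμ := hT μ ⟨k, by push_cast at hk; linarith⟩ y0
    have hμv : μ = v + (p : ℤ) • s := by rw [← hs]; abel
    have hd : ¬ (p : ℤ) ∣ b y0 μ := by
      rw [hμv, hq.symm, hq.add_left, H70.smul_left hq]
      intro h
      exact hy0 ((dvd_add_left (Dvd.intro _ rfl)).mp h)
    have hcop : IsCoprime (p : ℤ) (b y0 μ) :=
      ((Nat.prime_iff_prime_int.mp hp).coprime_iff_not_dvd).mpr hd
    obtain ⟨r, t, hrt⟩ := hcop
    have hμmem : μ ∈ H ⊔ pA A p := by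
      have e1 : μ = (p : ℤ) • (r • μ) + t • (b y0 μ • μ) := by
        rw [← mul_smul, ← mul_smul, ← add_smul]
        have : (p : ℤ) * r + t * b y0 μ = 1 := by linarith
        rw [this, one_smul]
      rw [e1]
      exact AddSubgroup.add_mem _ (AddSubgroup.mem_sup_right ⟨_, rfl⟩)
        (AddSubgroup.zsmul_mem _ (AddSubgroup.mem_sup_left hTμ) _)
    have e2 : v = μ - (p : ℤ) • s := by rw [hμv]; abel
    rw [e2]
    exact AddSubgroup.sub_mem _ hμmem (AddSubgroup.mem_sup_right ⟨_, rfl⟩)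

end abs

/-! ### Geometric part -/

lemma no_minus {L : Submodule ℤ (V n)} {e f ν : V n} (he : B e e = 0) (hf : B f f = 0)
    (hef : B e f = -1) (hν : B ν e = 0) (hνf : B ν f = 0) {w : V n ≃ₗ[ℝ] V n}
    (hw : w ∈ WL L) (h1 : ∀ x, w x = - E e ν he hν x) : False := by
  have hfe : B f e = -1 := by rw [B_comm]; exact hef
  obtain ⟨-, h2⟩ := time_pos (R := {a | Root L a}) (fun a ha => ha.2.1) hw
  set x0 : V n := e + f with hx0
  set G := E e ν he hν with hG
  have hx0t : B x0 x0 = -2 := by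
    rw [hx0]
    simp only [B_add_left, B_add_right, he, hf, hef, hfe]
    ring
  have hμx : B ν x0 = 0 := by rw [hx0, B_add_right, hν, hνf, add_zero]
  have hxμ : B x0 ν = 0 := by rw [B_comm]; exact hμx
  have hμμ : 0 ≤ B ν ν := perp_nonneg (v := x0) (by rw [hx0t]; norm_num) hμx
  have hx0e : B x0 e = -1 := by rw [hx0, B_add_left, he, hfe]; ring
  have hex0 : B e x0 = -1 := by rw [B_comm]; exact hx0e
  have hGx : B (G x0) x0 < 0 := by
    rw [hG, E_apply]
    simp only [B_add_left, B_sub_left, B_smul_left, hx0t, hx0e, hex0, hμx, hxμ]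
    nlinarith
  have hGiso : Isom G := E_isom _ _ he hν
  have h3 := time_mul (x := G x0) (y := x0) (by rw [hGiso, hx0t]; norm_num)
    (by rw [hx0t]; norm_num) hGx
  rcases lt_trichotomy (x0 0) 0 with h4 | h4 | h4
  · have h5 := h2 (-x0) (by rw [B_neg_left, B_neg_right, hx0t]; norm_num)
      (by simpa using h4)
    rw [h1, map_neg, neg_neg] at h5
    nlinarith
  · rw [h4, mul_zero] at h3
    exact lt_irrefl _ h3
  · have h5 := h2 x0 (by rw [hx0t]; norm_num) h4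
    rw [h1, Pi.neg_apply] at h5
    nlinarith

/-- multiples of N are translation vectors -/
lemma N_mem {L : Submodule ℤ (V n)} (hL : EvenLat L) {N : ℕ} (hc : CongSub L N (WL L))
    {e f m : V n} (heL : e ∈ L) (hmL : m ∈ L) (he : B e e = 0) (hf : B f f = 0)
    (hef : B e f = -1) (hme : B m e = 0) (hmf : B m f = 0) (h : B ((N : ℝ) • m) e = 0) :
    E e ((N : ℝ) • m) he h ∈ WL L := by
  have hNm : (N : ℝ) • m ∈ L := by
    have := H21.smulZ (L := L) (N : ℤ) hmL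
    exact_mod_cast this
  have hO := H21.E_OLat hL heL hNm he h
  have hone : IsOneMod L N (E e ((N : ℝ) • m) he h) := by
    intro x hx
    obtain ⟨t, ht⟩ := hL.int x hx e heL
    obtain ⟨s, hs⟩ := hL.int x hx m hmL
    obtain ⟨q, hq⟩ := hL.even m hmL
    refine ⟨(t : ℝ) • m - (s : ℝ) • e - ((((N : ℤ) * q * t : ℤ)) : ℝ) • e,
      L.sub_mem (L.sub_mem (H21.smulZ _ hmL) (H21.smulZ _ heL)) (H21.smulZ _ heL), ?_⟩
    rw [E_apply]
    simp only [B_smul_left, B_smul_right, ht, hs, hq]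
    ext i
    simp only [Pi.add_apply, Pi.sub_apply, Pi.smul_apply, smul_eq_mul]
    push_cast
    ring
  obtain ⟨w, hw, hs | hs⟩ := hc _ hO hone
  · have : E e ((N : ℝ) • m) he h = w := by
      ext1 x
      rw [hs]
    rw [this]
    exact hw
  · exact (no_minus he hf hef h (by rw [B_smul_left, hmf, mul_zero]) hw hs).elim

/-- the translation vectors -/
def HH (L : Submodule ℤ (V n)) (e f : V n) (he : B e e = 0) : AddSubgroup (Mef L e f) where
  carrier := {μ | E e (μ : V n) he μ.2.2.1 ∈ WL L}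
  zero_mem' := by
    show E e ((0 : Mef L e f) : V n) he _ ∈ WL L
    have h0 : B (0 : V n) e = 0 := by simp
    have : E e ((0 : Mef L e f) : V n) he (0 : Mef L e f).2.2.1 = E e 0 he h0 :=
      E_congr rfl (by simp) _ _ _ _
    rw [this, E_zero]
    exact one_mem _
  add_mem' := by
    intro x y hx hy
    have h1 : B ((x : V n) + (y : V n)) e = 0 := by rw [B_add_left, x.2.2.1, y.2.2.1, add_zero]
    have hx' : E e (x : V n) he x.2.2.1 ∈ WL L := hx
    have hy' : E e (y : V n) he y.2.2.1 ∈ WL L := hy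
    have h2 := mul_mem hx' hy'
    rw [E_mul e x y he x.2.2.1 y.2.2.1 h1] at h2
    exact h2
  neg_mem' := by
    intro x hx
    have h1 : B (-(x : V n)) e = 0 := by rw [B_neg_left, x.2.2.1, neg_zero]
    have hx' : E e (x : V n) he x.2.2.1 ∈ WL L := hx
    have h2 := inv_mem hx'
    rw [E_inv e x he x.2.2.1 h1] at h2
    exact h2

lemma mem_HH {L : Submodule ℤ (V n)} {e f : V n} (he : B e e = 0) (μ : Mef L e f) :
    μ ∈ HH L e f he ↔ E e (μ : V n) he μ.2.2.1 ∈ WL L := Iff.rfl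

theorem b_tem (hHYP : B_HYP) (hCMP : B_CMP) (hHEN : B_HEN) (hSPN : B_SPN) (hTRN : B_TRN)
    (hIND : D_IND) : B_TEM := by
  intro n L N e f m hL hInd hN hc heL hfL he hf hef hmL he' hm
  have hq := qf hL e f
  have h5 : ∀ p : ℕ, p.Prime → IndA (bG (Mef L e f)) ⊤ p 5 := fun p hp =>
    hIND n L e f p 5 hL heL hfL he hf hef hp (hInd p hp)
  have hT : ∀ μ : Mef L e f, (∃ k : ℤ, qG (Mef L e f) μ = 1 + N ^ 2 * k) → ∀ m : Mef L e f,
      bG (Mef L e f) m μ • μ ∈ HH L e f he := by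
    rintro μ ⟨k, hk⟩ m'
    have h1 : B (μ : V n) (μ : V n) = 2 + 2 * N ^ 2 * k := by
      have h2 := qG_cast hL μ
      rw [hk] at h2
      push_cast at h2
      linarith
    obtain ⟨h2, h3, h4⟩ := hTRN n L N e f m' μ hL hN hc heL hfL he hf hef m'.2.1 m'.2.2.1
      m'.2.2.2 μ.2.1 μ.2.2.1 μ.2.2.2 ⟨k, h1⟩
    rw [mem_HH]
    have h5 : ((bG (Mef L e f) m' μ • μ : Mef L e f) : V n) = B (m' : V n) (μ : V n) • (μ : V n) := by
      rw [AddSubgroup.coe_zsmul, ← bG_cast hL, Int.cast_smul_eq_zsmul]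
    have h6 : E e ((bG (Mef L e f) m' μ • μ : Mef L e f) : V n) he
        (bG (Mef L e f) m' μ • μ : Mef L e f).2.2.1 =
        E e (B (m' : V n) (μ : V n) • (μ : V n)) h2 h3 := E_congr rfl h5 _ _ _ _
    rw [h6]
    exact h4
  have hNH : ∀ x : Mef L e f, (N : ℤ) • x ∈ HH L e f he := by
    intro x
    rw [mem_HH]
    have h3 : B ((N : ℝ) • (x : V n)) e = 0 := by rw [B_smul_left, x.2.2.1, mul_zero]
    have h5 : (((N : ℤ) • x : Mef L e f) : V n) = (N : ℝ) • (x : V n) := by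
      rw [AddSubgroup.coe_zsmul, ← Int.cast_smul_eq_zsmul ℝ]
      norm_num
    have h6 : E e (((N : ℤ) • x : Mef L e f) : V n) he ((N : ℤ) • x : Mef L e f).2.2.1 =
        E e ((N : ℝ) • (x : V n)) he h3 := E_congr rfl h5 _ _ _ _
    rw [h6]
    exact N_mem hL hc heL x.2.1 he hf hef x.2.2.1 x.2.2.2 h3
  have htop : HH L e f he = ⊤ := all_of_primes hN _ hNH fun p hp hpN =>
    local_step hHYP hCMP hHEN hSPN hq hN _ h5 hT hp hpN
  -- general m
  obtain ⟨s, hs⟩ := hL.int m hmL f hfL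
  have hfe : B f e = -1 := by rw [B_comm]; exact hef
  have h1 : B (m + (s : ℝ) • e) e = 0 := by rw [B_add_left, B_smul_left, hm, he]; ring
  have h2 : B (m + (s : ℝ) • e) f = 0 := by rw [B_add_left, B_smul_left, hs, hef]; ring
  have h3 : m + (s : ℝ) • e ∈ L := L.add_mem hmL (H21.smulZ s heL)
  have h4 : (⟨m + (s : ℝ) • e, h3, h1, h2⟩ : Mef L e f) ∈ HH L e f he := by rw [htop]; trivial
  rw [mem_HH] at h4
  have h7 : E e (m + (s : ℝ) • e) he h1 = E e m he hm := E_add_self e m s he hm h1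
  rw [← h7]
  exact h4

end Pool.Agent.CON.H27

end
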