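import Pool.Agent.Helper25_CON.PDLem

/-!
Squad CON: module E_TWO (two capable summands)
-/

noncomputable section

namespace Pool.Agent.CON.H27

open Pool.Agent.H25Cong Pool.Agent.CON

variable {M : Type} [AddCommGroup M] {b : M → M → ℤ}

/-- the kernel of the character -/
def KK (hb : PD b) (x x1 : M) (p : ℤ) : AddSubgroup M where
  carrier := {t | ∃ (y : M) (c : ℤ), t = (2 : ℤ) • y - c • x ∧ (2 : ℤ) ∣ b y x1 + c * (p + 1)}
  zero_mem' := ⟨0, 0, by simp, by rw [hb.zero_left]; simp⟩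
  add_mem' := by
    rintro t t' ⟨y, c, rfl, h⟩ ⟨y', c', rfl, h'⟩
    refine ⟨y + y', c + c', by module, ?_⟩
    rw [hb.add_left]
    have e : b y x1 + b y' x1 + (c + c') * (p + 1) =
      (b y x1 + c * (p + 1)) + (b y' x1 + c' * (p + 1)) := by ring
    rw [e]
    exact dvd_add h h'
  neg_mem' := by
    rintro t ⟨y, c, rfl, h⟩
    refine ⟨-y, -c, by module, ?_⟩
    rw [hb.neg_left]
    have e : -b y x1 + -c * (p + 1) = -(b y x1 + c * (p + 1)) := by ring
    rw [e]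
    exact (dvd_neg).mpr h

/-- old roots -/
lemma old (hb : PD b) {S1 S2 : AddSubgroup M} {x1 x2 v : M} {p q : ℤ}
    (horth : ∀ y ∈ S1, ∀ z ∈ S2, b y z = 0) (htop : S1 ⊔ S2 = ⊤)
    (hx1 : x1 ∈ S1) (hx2 : x2 ∈ S2) (hp : b x1 x1 = 4 * p) (hq : b x2 x2 = 4 * q)
    (hvx : (2 : ℤ) ∣ b v (x1 + x2)) (hvx1 : ¬ (2 : ℤ) ∣ b v x1)
    (hR : ∀ y', (2 : ℤ) ∣ b y' (x1 + x2) → b v v ∣ 2 * b v y') : False := by
  have hv : v ∈ S1 ⊔ S2 := by rw [htop]; trivial
  obtain ⟨v1, hv1, v2, hv2, rfl⟩ := AddSubgroup.mem_sup.mp hv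
  have e1 : b (v1 + v2) x1 = b v1 x1 := by
    rw [hb.add_left, hb.symm v2 x1, horth x1 hx1 v2 hv2, add_zero]
  have e2 : b (v1 + v2) x2 = b v2 x2 := by
    rw [hb.add_left, horth v1 hv1 x2 hx2, zero_add]
  have e3 : b (v1 + v2) v1 = b v1 v1 := by
    rw [hb.add_left, hb.symm v2 v1, horth v1 hv1 v2 hv2, add_zero]
  have e4 : b (v1 + v2) v2 = b v2 v2 := by
    rw [hb.add_left, horth v1 hv1 v2 hv2, zero_add]
  have e5 : b (v1 + v2) (v1 + v2) = b v1 v1 + b v2 v2 := by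
    rw [hb.add_right, e3, e4]
  have hodd1 : ¬ (2 : ℤ) ∣ b v1 x1 := by rwa [e1] at hvx1
  have hodd2 : ¬ (2 : ℤ) ∣ b v2 x2 := by
    rw [hb.add_right, e1, e2] at hvx
    omega
  have hv10 : v1 ≠ 0 := by
    rintro rfl
    rw [hb.zero_left] at hodd1
    exact hodd1 (dvd_zero _)
  have hv20 : v2 ≠ 0 := by
    rintro rfl
    rw [hb.zero_left] at hodd2
    exact hodd2 (dvd_zero _)
  have hp1 := hb.pos v1 hv10
  have hp2 := hb.pos v2 hv20
  obtain ⟨k, hk⟩ := hb.even (v1 + v2)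
  -- k is odd
  have hx1x : (2 : ℤ) ∣ b x1 (x1 + x2) := by
    rw [hb.add_right, horth x1 hx1 x2 hx2, hp]
    exact ⟨2 * p, by ring⟩
  have h1 := hR x1 hx1x
  rw [hk, e1] at h1
  have h2 : k ∣ b v1 x1 := (mul_dvd_mul_iff_left (by norm_num : (2 : ℤ) ≠ 0)).mp h1
  have hkodd : ¬ (2 : ℤ) ∣ k := fun h => hodd1 (dvd_trans h h2)
  have hcop : IsCoprime (2 : ℤ) k :=
    (Int.prime_two.coprime_iff_not_dvd).mpr hkodd
  have key : ∀ w, w ∈ S1 ∨ w ∈ S2 → b (v1 + v2) w = b w w → 0 < b w w → 2 * k ≤ b w w := by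
    intro w _ hw hpos
    have h3 := hR ((2 : ℤ) • w) (by rw [hb.zsmul_left]; exact Dvd.intro _ rfl)
    rw [hk, hb.zsmul_right, hw] at h3
    have h4 : k ∣ 2 * b w w := (mul_dvd_mul_iff_left (by norm_num : (2 : ℤ) ≠ 0)).mp h3
    have h5 : k ∣ b w w := hcop.symm.dvd_of_dvd_mul_left h4
    have h6 : (2 : ℤ) ∣ b w w := hb.two_dvd w
    exact Int.le_of_dvd hpos (hcop.mul_dvd h6 h5)
  have h3 := key v1 (Or.inl hv1) e3 hp1
  have h4 := key v2 (Or.inr hv2) e4 hp2
  rw [e5] at hk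
  omega

theorem e_two : E_TWO := by
  intro M _ b S1 S2 x1 x2' z1 z2 hb horth htop hx1 hx2' hz1 hz2 h41 h42' ho1 ho2'
  -- adjust x2
  obtain ⟨x2, hx2, p, q, k, hp, hq, hpq, ho2⟩ : ∃ x2 ∈ S2, ∃ p q k : ℤ, b x1 x1 = 4 * p ∧
      b x2 x2 = 4 * q ∧ p + q = 2 * k + 1 ∧ ¬ (2 : ℤ) ∣ b x2 z2 := by
    obtain ⟨p, hp⟩ := h41
    obtain ⟨q, hq⟩ := h42'
    rcases Int.even_or_odd (p + q) with ⟨k, hk⟩ | ⟨k, hk⟩
    · obtain ⟨c, hc⟩ := hb.even z2
      have ho : ∃ a : ℤ, b x2' z2 = 2 * a + 1 := ⟨b x2' z2 / 2, by omega⟩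
      obtain ⟨a, ha⟩ := ho
      refine ⟨x2' + (2 : ℤ) • z2, AddSubgroup.add_mem _ hx2' (AddSubgroup.zsmul_mem _ hz2 2),
        p, q + (2 * a + 1) + 2 * c, k + a + c, hp, ?_, by omega, ?_⟩
      · rw [hb.add_left, hb.add_right, hb.add_right, hb.zsmul_left, hb.zsmul_right,
          hb.zsmul_left, hb.zsmul_right, hb.symm z2 x2', hq, ha, hc]
        ring
      · rw [hb.add_left, hb.zsmul_left, ha]
        omega
    · exact ⟨x2', hx2', p, q, k, hp, hq, hk, ho2'⟩
  set x : M := x1 + x2 with hx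
  have h12 : b x1 x2 = 0 := horth x1 hx1 x2 hx2
  have hxx1 : b x x1 = 4 * p := by rw [hx, hb.add_left, hb.symm x2 x1, h12, hp, add_zero]
  have hxx2 : b x x2 = 4 * q := by rw [hx, hb.add_left, h12, hq, zero_add]
  have hxx : b x x = 8 * k + 4 := by
    conv_lhs => rw [hx]
    rw [hb.add_right, ← hx, hxx1, hxx2]
    linarith
  have hxz1 : b x z1 = b x1 z1 := by
    rw [hx, hb.add_left, hb.symm x2 z1, horth z1 hz1 x2 hx2, add_zero]
  have hxz2 : b x z2 = b x2 z2 := by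
    rw [hx, hb.add_left, horth x1 hx1 z2 hz2, zero_add]
  refine ⟨x, ⟨k, hxx⟩, ?_⟩
  intro hRG
  -- all roots are in KK
  have hsub : AddSubgroup.closure {t : M | InN b x t ∧ t ≠ 0 ∧ ∀ s, InN b x s →
      b t t ∣ 2 * b t s} ≤ KK hb x x1 p := by
    rw [AddSubgroup.closure_le]
    rintro t ⟨⟨y, c, rfl, hc⟩, ht0, htr⟩
    refine ⟨y, c, rfl, ?_⟩
    by_cases hc2 : (2 : ℤ) ∣ c
    · -- old roots
      obtain ⟨e, rfl⟩ := hc2
      by_contra hodd
      have hvt : (2 : ℤ) • y - (2 * e) • x = (2 : ℤ) • (y - e • x) := by module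
      have hy1 : ¬ (2 : ℤ) ∣ b y x1 := by
        intro h
        exact hodd (dvd_add h ⟨e * (p + 1), by ring⟩)
      refine old hb horth htop hx1 hx2 hp hq (v := y - e • x) ?_ ?_ ?_
      · rw [← hx, hb.sub_left, hb.zsmul_left, hxx]
        obtain ⟨d, hd⟩ := hc
        exact ⟨d + e - e * (4 * k + 2), by linarith⟩
      · rw [hb.sub_left, hb.zsmul_left, hxx1]
        intro h
        apply hy1
        obtain ⟨d, hd⟩ := h
        exact ⟨d + 2 * (e * p), by linarith⟩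
      · intro y' hy'
        have h1 := htr ((2 : ℤ) • y') ⟨y', 0, by simp, by simpa using hy'⟩
        rw [hvt, hb.zsmul_left, hb.zsmul_right, hb.zsmul_left, hb.zsmul_right] at h1
        have h2 : 4 * b (y - e • x) (y - e • x) ∣ 4 * (2 * b (y - e • x) y') := by
          have e1 : 4 * b (y - e • x) (y - e • x) = 2 * (2 * b (y - e • x) (y - e • x)) := by ring
          have e2 : 4 * (2 * b (y - e • x) y') = 2 * (2 * (2 * b (y - e • x) y')) := by ring
          rw [e1, e2]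
          exact h1
        exact (mul_dvd_mul_iff_left (by norm_num : (4 : ℤ) ≠ 0)).mp h2
    · -- new roots
      have hc1 : ∃ a : ℤ, c = 2 * a + 1 := ⟨c / 2, by omega⟩
      obtain ⟨a, ha⟩ := hc1
      have hyX : ∃ d : ℤ, b y x = 2 * d + 1 := by
        obtain ⟨e, he⟩ := hc
        exact ⟨e + a, by omega⟩
      obtain ⟨d, hd⟩ := hyX
      obtain ⟨e, he⟩ := hb.even y
      set t : M := (2 : ℤ) • y - c • x with ht
      have htt : b t t = 4 * b y y - 4 * c * b y x + c ^ 2 * b x x := by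
        rw [ht, hb.sub_left, hb.sub_right, hb.sub_right, hb.zsmul_left, hb.zsmul_left,
          hb.zsmul_right, hb.zsmul_right, hb.zsmul_left, hb.zsmul_left, hb.zsmul_right,
          hb.zsmul_right, hb.symm x y]
        ring
      have hrho : ∃ ρ : ℤ, b t t = 4 * ρ ∧ (2 : ℤ) ∣ ρ := by
        refine ⟨2 * e - c * (2 * d + 1) + c ^ 2 * (2 * k + 1), ?_, ?_⟩
        · rw [htt, he, hd, hxx]; ring
        · rw [ha]
          exact ⟨e - (2 * a + 1) * d - a + (2 * a + 1) ^ 2 * k + (2 * a ^ 2 + 2 * a), by ring⟩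
      obtain ⟨ρ, hρ, hρ2⟩ := hrho
      have htpos : 0 < b t t := hb.pos t ht0
      have hρpos : 0 < ρ := by omega
      have hdiv : ∀ y' : M, (2 : ℤ) ∣ b x y' → ρ ∣ b t y' := by
        intro y' hy'
        have h1 := htr ((2 : ℤ) • y') ⟨y', 0, by simp, by simpa [hb.symm y' x] using hy'⟩
        rw [hρ, hb.zsmul_right] at h1
        have h2 : 4 * ρ ∣ 4 * b t y' := by
          have : 2 * (2 * b t y') = 4 * b t y' := by ring
          rwa [this] at h1
        exact (mul_dvd_mul_iff_left (by norm_num : (4 : ℤ) ≠ 0)).mp h2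
      have hρ4 : ρ % 4 = 2 := by
        have h1 := hdiv ((2 : ℤ) • z1) (by rw [hb.zsmul_right]; exact Dvd.intro _ rfl)
        rw [hb.zsmul_right] at h1
        have h2 : ¬ (2 : ℤ) ∣ b t z1 := by
          rw [ht, hb.sub_left, hb.zsmul_left, hb.zsmul_left, hxz1]
          intro h
          have h3 : (2 : ℤ) ∣ c * b x1 z1 :=
            (dvd_sub_right (Dvd.intro (b y z1) rfl : (2 : ℤ) ∣ 2 * b y z1)).mp h
          rcases Int.prime_two.dvd_or_dvd h3 with h4 | h4
          · exact hc2 h4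
          · exact ho1 h4
        obtain ⟨u, hu⟩ := hρ2
        by_contra h3
        have h5 : (2 : ℤ) ∣ u := by omega
        obtain ⟨w, hw⟩ := h5
        have h6 : (4 : ℤ) ∣ 2 * b t z1 := dvd_trans ⟨w, by rw [hu, hw]; ring⟩ h1
        apply h2
        omega
      -- components
      have hymem : y ∈ S1 ⊔ S2 := by rw [htop]; trivial
      obtain ⟨y1, hy1, y2, hy2, hy⟩ := AddSubgroup.mem_sup.mp hymem
      set t1 : M := (2 : ℤ) • y1 - c • x1 with ht1
      set t2 : M := (2 : ℤ) • y2 - c • x2 with ht2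
      have htsum : t = t1 + t2 := by
        rw [ht, ht1, ht2, ← hy, hx]; module
      have ht1S : t1 ∈ S1 := AddSubgroup.sub_mem _ (AddSubgroup.zsmul_mem _ hy1 2)
        (AddSubgroup.zsmul_mem _ hx1 c)
      have ht2S : t2 ∈ S2 := AddSubgroup.sub_mem _ (AddSubgroup.zsmul_mem _ hy2 2)
        (AddSubgroup.zsmul_mem _ hx2 c)
      have h0 : b t1 t2 = 0 := horth t1 ht1S t2 ht2S
      have htt1 : b t t1 = b t1 t1 := by
        rw [htsum, hb.add_left, hb.symm t2 t1, h0, add_zero]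
      have htt2 : b t t2 = b t2 t2 := by
        rw [htsum, hb.add_left, h0, zero_add]
      have hsumn : b t t = b t1 t1 + b t2 t2 := by
        conv_lhs => rw [htsum]
        rw [hb.add_right, ← htsum, htt1, htt2]
      have key : ∀ (w xx zz yy : M) (m : ℤ), w = (2 : ℤ) • yy - c • xx → b xx xx = 4 * m →
          b t w = b w w → b x w = b xx w → ¬ (2 : ℤ) ∣ b xx zz → 2 * ρ ≤ b w w := by
        intro w xx zz yy m hw hm htw hxw hodd
        obtain ⟨f, hf⟩ := hb.even yy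
        have hww : b w w = 4 * (2 * f - c * b yy xx + c ^ 2 * m) := by
          rw [hw, hb.sub_left, hb.sub_right, hb.sub_right, hb.zsmul_left, hb.zsmul_left,
            hb.zsmul_right, hb.zsmul_right, hb.zsmul_left, hb.zsmul_left, hb.zsmul_right,
            hb.zsmul_right, hb.symm xx yy, hf, hm]
          ring
        have h1 : ρ ∣ b w w := by
          rw [← htw]
          apply hdiv
          rw [hxw, hw, hb.sub_right, hb.zsmul_right, hb.zsmul_right, hm]
          exact ⟨b xx yy - c * (2 * m), by ring⟩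
        have h2 : w ≠ 0 := by
          intro hw0
          have h3 : b w zz = 0 := by rw [hw0, hb.zero_left]
          rw [hw, hb.sub_left, hb.zsmul_left, hb.zsmul_left] at h3
          have h4 : (2 : ℤ) ∣ c * b xx zz := ⟨b yy zz, by linarith⟩
          rcases Int.prime_two.dvd_or_dvd h4 with h5 | h5
          · exact hc2 h5
          · exact hodd h5
        have h3 := hb.pos w h2
        obtain ⟨g, hg⟩ := h1
        have h4 : (2 : ℤ) ∣ g := by
          have h5 : ∃ r : ℤ, ρ = 4 * r + 2 := ⟨ρ / 4, by omega⟩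
          obtain ⟨r, hr⟩ := h5
          rw [hr] at hg
          have h6 : 2 * g = 4 * (2 * f - c * b yy xx + c ^ 2 * m - r * g) := by
            rw [hww] at hg
            linarith
          omega
        obtain ⟨g', rfl⟩ := h4
        have h5 : (2 * ρ) ∣ b w w := ⟨g', by rw [hg]; ring⟩
        exact Int.le_of_dvd h3 h5
      have hxt1 : b x t1 = b x1 t1 := by
        rw [hx, hb.add_left, hb.symm x2 t1, horth t1 ht1S x2 hx2, add_zero]
      have hxt2 : b x t2 = b x2 t2 := by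
        rw [hx, hb.add_left, horth x1 hx1 t2 ht2S, zero_add]
      have k1 := key t1 x1 z1 y1 p ht1 hp htt1 hxt1 ho1
      have k2 := key t2 x2 z2 y2 q ht2 hq htt2 hxt2 ho2
      have k3 : b t1 t1 = 2 * ρ := by omega
      obtain ⟨f, hf⟩ := hb.even y1
      have hww : b t1 t1 = 4 * (2 * f - c * b y1 x1 + c ^ 2 * p) := by
        rw [ht1, hb.sub_left, hb.sub_right, hb.sub_right, hb.zsmul_left, hb.zsmul_left,
          hb.zsmul_right, hb.zsmul_right, hb.zsmul_left, hb.zsmul_left, hb.zsmul_right,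
          hb.zsmul_right, hb.symm x1 y1, hf, hp]
        ring
      have hyy : b y x1 = b y1 x1 := by
        rw [← hy, hb.add_left, hb.symm y2 x1, horth x1 hx1 y2 hy2, add_zero]
      rw [hyy]
      have h5 : ∃ r : ℤ, ρ = 4 * r + 2 := ⟨ρ / 4, by omega⟩
      obtain ⟨r, hr⟩ := h5
      have h6 : 2 * r + 1 = 2 * f - c * b y1 x1 + c ^ 2 * p := by
        rw [hr] at k3
        omega
      rw [ha] at h6 ⊢
      refine ⟨f - a * b y1 x1 + (2 * a ^ 2 + 2 * a) * p - r + a * (p + 1) + p, ?_⟩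
      linarith
  -- the element 2 (z1 + z2)
  have hin : InN b x ((2 : ℤ) • (z1 + z2)) := by
    refine ⟨z1 + z2, 0, by simp, ?_⟩
    rw [hb.add_left, hb.symm z1 x, hb.symm z2 x, hxz1, hxz2]
    omega
  obtain ⟨y, c, hyc, hpar⟩ := hsub (hRG _ hin)
  have h1 : b ((2 : ℤ) • (z1 + z2)) z1 = b ((2 : ℤ) • y - c • x) z1 := by rw [hyc]
  rw [hb.zsmul_left, hb.sub_left, hb.zsmul_left, hb.zsmul_left, hxz1] at h1
  have h2 : (2 : ℤ) ∣ c * b x1 z1 := ⟨b y z1 - b (z1 + z2) z1, by linarith⟩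
  have hc2 : (2 : ℤ) ∣ c := by
    rcases Int.prime_two.dvd_or_dvd h2 with h3 | h3
    · exact h3
    · exact absurd h3 ho1
  obtain ⟨e, rfl⟩ := hc2
  have h3 : (2 : ℤ) • (z1 + z2 - (y - e • x)) = 0 := by
    have : (2 : ℤ) • (z1 + z2 - (y - e • x)) =
      (2 : ℤ) • (z1 + z2) - ((2 : ℤ) • y - (2 * e) • x) := by module
    rw [this, hyc, sub_self]
  have h4 := hb.zsmul_eq_zero (by norm_num) h3
  have h5 : y = z1 + z2 + e • x := by
    rw [sub_eq_zero] at h4
    rw [h4]; abel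
  rw [h5, hb.add_left, hb.add_left, hb.zsmul_left, hxx1, hb.symm z2 x1, horth x1 hx1 z2 hz2,
    hb.symm z1 x1] at hpar
  apply ho1
  obtain ⟨g, hg⟩ := hpar
  exact ⟨g - 2 * (e * p) - e * (p + 1), by linarith⟩

end Pool.Agent.CON.H27

end
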